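import Pool.Agent.H38R2.Crit

/-!
# Locally residually finite varieties of associative rings

An identity is an element `f` of `MonoidAlgebra ℤ (FreeSemigroup ℕ)`, the free associative ring
without unit on the variables `x_0, x_1, …`.
-/

set_option autoImplicit false
set_option linter.style.haveILetI false

namespace Pool.Agent.Results.MP_8983b8_al.Criterion

open Pool.Agent.H38R2

universe u

/-- The (not necessarily unital) ring `R` is finitely generated. -/
def FinGen (R : Type u) [NonUnitalRing R] : Prop :=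
  ∃ s : Finset R, NonUnitalSubring.closure (s : Set R) = ⊤

/-- The ring `R` is residually finite: every nonzero element is separated from `0` by a
homomorphism onto a finite ring. -/
def ResiduallyFinite (R : Type u) [NonUnitalRing R] : Prop :=
  ∀ r : R, r ≠ 0 → ∃ (B : Type u) (_ : NonUnitalRing B) (φ : R →ₙ+* B),
    Finite B ∧ Function.Surjective φ ∧ φ r ≠ 0

/-- The variety of associative rings defined by the identities `f = 0`, `f ∈ S`, is locally
residually finite. -/
def LocallyResiduallyFinite (S : Set (MonoidAlgebra ℤ (FreeSemigroup ℕ))) : Prop :=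
  ∀ (R : Type u) [NonUnitalRing R], Satisfies S R → FinGen R → ResiduallyFinite R

theorem finite_int_quot (n : ℕ) (hn : n ≠ 0) : Finite (ℤ ⧸ Ideal.span {(n : ℤ)}) := by
  haveI : NeZero n := ⟨hn⟩
  exact Finite.of_equiv _ (Int.quotientSpanNatEquivZMod n).symm.toEquiv

theorem prime_ideal (𝔭 : Ideal ℤ) (h : 𝔭.IsPrime) :
    ∃ p : ℕ, p.Prime ∧ ∀ x : ℤ, ¬ (p : ℤ) ∣ x → x ∉ 𝔭 := by
  obtain ⟨g, hg⟩ : ∃ g : ℤ, 𝔭 = Ideal.span {g} := (IsPrincipalIdealRing.principal 𝔭).principal
  by_cases h0 : g = 0
  · refine ⟨2, Nat.prime_two, fun x hx hx' => hx ?_⟩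
    rw [hg, h0, Ideal.mem_span_singleton, zero_dvd_iff] at hx'
    rw [hx']; exact dvd_zero _
  · rw [hg, Ideal.span_singleton_prime h0] at h
    refine ⟨g.natAbs, Int.prime_iff_natAbs_prime.1 h, fun x hx hx' => hx ?_⟩
    rw [hg, Ideal.mem_span_singleton] at hx'
    exact Int.natAbs_dvd.2 hx'

/-- **Criterion.** The variety of associative rings defined by the set `S` of identities is
locally residually finite if and only if for every prime number `p` some `f ∈ S` has a coefficient
not divisible by `p` at a monomial `x_i` of degree one, or there are `i`, `j` and a finite multiset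
`m` of indices such that the sum of the coefficients in `f` of all monomials `x_i w x_j`, where `w`
has the multiset `m` of letters, is not divisible by `p`. -/
theorem result (S : Set (MonoidAlgebra ℤ (FreeSemigroup ℕ))) :
    LocallyResiduallyFinite.{u} S ↔
      ∀ p : ℕ, p.Prime → ∃ f ∈ S, (∃ i : ℕ, ¬ (p : ℤ) ∣ f.coeff (FreeSemigroup.of i)) ∨
        ∃ (i j : ℕ) (m : Multiset ℕ), ¬ (p : ℤ) ∣ sig i j m f := by
  constructor
  · intro h p hp
    by_contra hcon
    have hmax : (Ideal.span {(p : ℤ)}).IsMaximal :=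
      PrincipalIdealRing.isMaximal_of_irreducible (Nat.prime_iff_prime_int.1 hp).irreducible
    have hout : ¬ Outside S (Ideal.span {(p : ℤ)}) := by
      rintro ⟨f, hf, h1⟩
      apply hcon
      refine ⟨f, hf, ?_⟩
      simp only [Ideal.mem_span_singleton] at h1
      exact h1
    obtain ⟨A, iA, iM, i3, i4, hA, ⟨s, hs⟩, x, hx, hB⟩ :=
      not_rf_of_not_outside.{u, 0} S (Ideal.span {(p : ℤ)}) hmax hout
    obtain rfl : iM = AddCommGroup.toIntModule A := Subsingleton.elim _ _
    obtain ⟨B, _, φ, hfin, _, hφ⟩ := h A hA (by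
      refine ⟨s, ?_⟩
      rw [eq_top_iff]
      rintro y -
      have hy : y ∈ NonUnitalAlgebra.adjoin ℤ (s : Set A) := by rw [hs]; trivial
      induction hy using NonUnitalAlgebra.adjoin_induction with
      | mem x hx => exact NonUnitalSubring.subset_closure hx
      | add x y _ _ hx hy => exact add_mem hx hy
      | zero => exact zero_mem _
      | mul x y _ _ hx hy => exact mul_mem hx hy
      | smul r x _ hx => exact zsmul_mem hx r) x hx
    exact hφ (hB B φ)
  · rintro hS R _ hR ⟨s, hs⟩ r hr
    have hadj : ∀ y : R, y ∈ NonUnitalAlgebra.adjoin ℤ (s : Set R) := by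
      intro y
      have hy : y ∈ NonUnitalSubring.closure (s : Set R) := by rw [hs]; trivial
      induction hy using NonUnitalSubring.closure_induction with
      | mem x hx => exact NonUnitalAlgebra.subset_adjoin ℤ hx
      | zero => exact zero_mem _
      | add x y _ _ hx hy => exact add_mem hx hy
      | neg x _ hx => exact neg_mem hx
      | mul x y _ _ hx hy => exact mul_mem hx hy
    have hs' : NonUnitalAlgebra.adjoin ℤ (s : Set R) = ⊤ :=
      SetLike.ext fun y => ⟨fun _ => trivial, fun _ => hadj y⟩
    obtain ⟨B, i1, i2, i3, i4, i5, φ, h2, h3⟩ := rf_of_outside (Φ := ℤ) finite_int_quot S (by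
        intro 𝔭 h𝔭
        obtain ⟨p, hp, hp'⟩ := prime_ideal 𝔭 h𝔭
        obtain ⟨f, hf, h1⟩ := hS p hp
        refine ⟨f, hf, ?_⟩
        rcases h1 with ⟨i, hi⟩ | ⟨i, j, m, hm⟩
        · exact Or.inl ⟨i, hp' _ hi⟩
        · exact Or.inr ⟨i, j, m, hp' _ hm⟩) R hR s hs' r hr
    exact ⟨B, i1, (φ : R →ₙ+* B), i5, h2, h3⟩

end Pool.Agent.Results.MP_8983b8_al.Criterion
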